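import Mathlib

set_option autoImplicit false

namespace Pool.Agent.Results.MP_36d240_al.Counter

/-- Primary conjugacy: `a = u v` and `b = v u` with `u, v` in the monoid `S` with an identity adjoined. -/
def PConj {S : Type} [Semigroup S] (a b : S) : Prop :=
  ∃ u v : WithOne S, (a : WithOne S) = u * v ∧ (b : WithOne S) = v * u

def T : Subsemigroup (Equiv.Perm (Fin 3) × Multiplicative ℤ) where
  carrier := {x | 1 ≤ x.2.toAdd ∧ (x.2.toAdd = 1 → x.1 ≠ Equiv.swap 0 2)}
  mul_mem' := by
    rintro a b ⟨ha, -⟩ ⟨hb, -⟩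
    refine ⟨?_, fun h => ?_⟩
    · simp only [Prod.snd_mul, toAdd_mul]
      omega
    · simp only [Prod.snd_mul, toAdd_mul] at h
      omega

def el (g : Equiv.Perm (Fin 3)) (n : ℤ) (h : 1 ≤ n ∧ (n = 1 → g ≠ Equiv.swap 0 2)) : T :=
  ⟨(g, Multiplicative.ofAdd n), h⟩

theorem result : ∃ (S : Type) (_ : Semigroup S), IsCancelMul S ∧
    (∃ (H : Type) (_ : Group H) (f : S →ₙ* H), Function.Injective f) ∧
    ∃ a b c : S, PConj a b ∧ PConj b c ∧ ¬ PConj a c := by
  refine ⟨T, inferInstance, ?_, ⟨_, inferInstance, MulMemClass.subtype T, Subtype.val_injective⟩,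
    el (Equiv.swap 0 1) 2 (by decide), el (Equiv.swap 0 2) 2 (by decide),
    el (Equiv.swap 1 2) 2 (by decide), ?_, ?_, ?_⟩
  · exact Subtype.val_injective.isCancelMul _ fun _ _ => rfl
  · refine ⟨(el (Equiv.swap 1 2) 1 (by decide) : T),
      (el (Equiv.swap 1 2 * Equiv.swap 0 1) 1 (by decide) : T), ?_, ?_⟩ <;>
    · rw [← WithOne.coe_mul]
      exact congrArg _ (Subtype.ext (by decide))
  · refine ⟨(el (Equiv.swap 0 1) 1 (by decide) : T),
      (el (Equiv.swap 0 1 * Equiv.swap 0 2) 1 (by decide) : T), ?_, ?_⟩ <;>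
    · rw [← WithOne.coe_mul]
      exact congrArg _ (Subtype.ext (by decide))
  · rintro ⟨u, v, h1, h2⟩
    induction u using WithOne.recOneCoe with
    | one =>
      rw [one_mul] at h1
      rw [mul_one, ← h1, WithOne.coe_inj] at h2
      exact absurd (congrArg (fun x : T => x.1.1) h2) (by decide)
    | coe u =>
      induction v using WithOne.recOneCoe with
      | one =>
        rw [mul_one] at h1
        rw [one_mul, ← h1, WithOne.coe_inj] at h2
        exact absurd (congrArg (fun x : T => x.1.1) h2) (by decide)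
      | coe v =>
        rw [← WithOne.coe_mul, WithOne.coe_inj] at h1 h2
        obtain ⟨⟨p, m⟩, hm, hp⟩ := u
        obtain ⟨⟨q, n⟩, hn, hq⟩ := v
        have e1 : Equiv.swap 0 1 = p * q := congrArg (fun x : T => x.1.1) h1
        have e2 : Equiv.swap 1 2 = q * p := congrArg (fun x : T => x.1.1) h2
        have e3 : (2 : ℤ) = m.toAdd + n.toAdd := congrArg (fun x : T => x.1.2.toAdd) h1
        have key : ∀ p q : Equiv.Perm (Fin 3), Equiv.swap 0 1 = p * q → Equiv.swap 1 2 = q * p →
            p = Equiv.swap 0 2 ∨ q = Equiv.swap 0 2 := by decide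
        simp only at hm hn hp hq
        rcases key p q e1 e2 with h | h
        · exact hp (by omega) h
        · exact hq (by omega) h

end Pool.Agent.Results.MP_36d240_al.Counter
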